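import Mathlib
import Pool.Agent.Helper65.MT.St

/-! Module FI of project MT (MP_edbc81_nt): final assembly. -/

open Finset Pool.Agent.Helper65.MT Pool.Agent.Helper16

namespace Pool.Agent.Helper12.MT

theorem lam_nonneg (n : ℕ) : 0 ≤ lam n := by
  unfold lam
  set d := |Real.exp n - round (Real.exp n)| with hd
  have h0 : 0 ≤ d := abs_nonneg _
  have h1 : d ≤ 1 / 2 := abs_sub_round _
  rcases h0.eq_or_lt with h | h
  · rw [← h]; simp
  · apply Real.log_nonneg
    rw [le_div_iff₀ h]
    linarith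

/-- One block. -/
theorem block {C1 C2 X1 : ℝ} {n0 : ℕ} (hC1 : 0 < C1) (hC2 : 0 < C2)
    (hA : ∀ t : ℕ, X1 ≤ t → ∀ H : ℕ,
      Real.log t ≤ H → (H : ℝ) ≤ (Real.log t) ^ 4 → H ≤ t →
      ∃ m, ∑ n ∈ (Finset.Ioc t (t + H)).erase m, lam n ≤
        C1 * H * t * (Real.log (Real.log t)) ^ 2 / Real.log t)
    (hB : ∀ n : ℕ, n0 ≤ n → lam n ≤ C2 * n * Real.log n)
    {X h t : ℕ} (hX1 : X1 ≤ X) (hXn : n0 ≤ X) (hs : 3 ≤ Real.log X)
    (hh1 : (Real.log X) ^ 2 ≤ h) (hh2 : (h : ℝ) ≤ (Real.log X) ^ 2 + 1) (hh3 : h ≤ X)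
    (ht1 : X ≤ t) (ht2 : t ≤ 2 * X) :
    ∑ n ∈ Finset.Ioc t (t + h), lam n ≤
      (8 * C1 + 6 * C2) * h * X * (Real.log (Real.log X)) ^ 2 / Real.log X := by
  set s := Real.log X with hsdef
  set u := Real.log s with hudef
  have hXpos : 0 < (X : ℝ) := by
    rcases Nat.eq_zero_or_pos X with h0 | h0
    · exfalso
      rw [hsdef, h0] at hs
      norm_num at hs
    · exact_mod_cast h0
  have hs0 : 0 < s := by linarith
  have hu1 : 1 ≤ u := by
    rw [hudef, Real.le_log_iff_exp_le hs0]
    have := Real.exp_one_lt_d9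
    linarith
  have ht1' : (X : ℝ) ≤ t := by exact_mod_cast ht1
  have ht2' : (t : ℝ) ≤ 2 * X := by exact_mod_cast ht2
  have htpos : 0 < (t : ℝ) := lt_of_lt_of_le hXpos ht1'
  have hst : s ≤ Real.log t := Real.log_le_log hXpos ht1'
  have hlog2 : Real.log 2 ≤ 1 := by
    have := Real.log_two_lt_d9
    linarith
  have hlog3 : Real.log 3 ≤ 2 := by
    have := Real.log_le_sub_one_of_pos (by norm_num : (0:ℝ) < 3)
    linarith
  have hts : Real.log t ≤ s + 1 := by
    calc Real.log t ≤ Real.log (2 * X) := Real.log_le_log htpos ht2'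
      _ = Real.log 2 + s := Real.log_mul (by norm_num) hXpos.ne'
      _ ≤ s + 1 := by linarith
  have hlt0 : 0 < Real.log t := lt_of_lt_of_le hs0 hst
  have hll0 : 0 ≤ Real.log (Real.log t) := by
    have : u ≤ Real.log (Real.log t) := Real.log_le_log hs0 hst
    linarith
  have hll : Real.log (Real.log t) ≤ 2 * u := by
    calc Real.log (Real.log t) ≤ Real.log (2 * s) := Real.log_le_log hlt0 (by linarith)
      _ = Real.log 2 + u := Real.log_mul (by norm_num) hs0.ne'
      _ ≤ 2 * u := by linarith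
  have hh0 : 0 ≤ (h : ℝ) := Nat.cast_nonneg _
  have c1 : X1 ≤ t := le_trans hX1 ht1'
  have c2 : Real.log t ≤ h := by nlinarith
  have c3 : (h : ℝ) ≤ (Real.log t) ^ 4 := by
    have e1 : s ^ 4 ≤ (Real.log t) ^ 4 := pow_le_pow_left₀ hs0.le hst 4
    have e2 : s ^ 2 + 1 ≤ s ^ 4 := by nlinarith [sq_nonneg (s ^ 2 - 1), sq_nonneg s]
    linarith
  obtain ⟨m, hm⟩ := hA t c1 h c2 c3 (le_trans hh3 ht1)
  have hm2 : C1 * h * t * (Real.log (Real.log t)) ^ 2 / Real.log t ≤
      8 * C1 * h * X * u ^ 2 / s := by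
    have e1 : (Real.log (Real.log t)) ^ 2 ≤ (2 * u) ^ 2 := pow_le_pow_left₀ hll0 hll 2
    have e2 : C1 * h * t * (Real.log (Real.log t)) ^ 2 ≤ C1 * h * (2 * X) * (2 * u) ^ 2 := by
      apply mul_le_mul _ e1 (by positivity) (by positivity)
      exact mul_le_mul_of_nonneg_left ht2' (by positivity)
    calc C1 * h * t * (Real.log (Real.log t)) ^ 2 / Real.log t
        ≤ C1 * h * (2 * X) * (2 * u) ^ 2 / s := by
          apply div_le_div₀ (by positivity) e2 hs0 hst
      _ = 8 * C1 * h * X * u ^ 2 / s := by ring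
  have hK : 0 ≤ 6 * C2 * h * X * u ^ 2 / s := by positivity
  have hsplit : (8 * C1 + 6 * C2) * h * X * u ^ 2 / s =
      8 * C1 * h * X * u ^ 2 / s + 6 * C2 * h * X * u ^ 2 / s := by ring
  rw [hsplit]
  by_cases hmem : m ∈ Finset.Ioc t (t + h)
  · rw [← Finset.sum_erase_add _ _ hmem]
    have hmm := Finset.mem_Ioc.1 hmem
    have m1 : n0 ≤ m := by omega
    have m2 : (m : ℝ) ≤ 3 * X := by
      have : m ≤ 3 * X := by omega
      exact_mod_cast this
    have m3 : 0 < (m : ℝ) := by
      have : 0 < m := by omega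
      exact_mod_cast this
    have m4 : Real.log m ≤ 2 * s := by
      calc Real.log m ≤ Real.log (3 * X) := Real.log_le_log m3 m2
        _ = Real.log 3 + s := Real.log_mul (by norm_num) hXpos.ne'
        _ ≤ 2 * s := by linarith
    have m5 : 0 ≤ Real.log m := by
      apply Real.log_nonneg
      have : 1 ≤ m := by omega
      exact_mod_cast this
    have m6 : lam m ≤ 6 * C2 * X * s := by
      calc lam m ≤ C2 * m * Real.log m := hB m m1
        _ ≤ C2 * (3 * X) * (2 * s) := by
            apply mul_le_mul _ m4 m5 (by positivity)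
            exact mul_le_mul_of_nonneg_left m2 hC2.le
        _ = 6 * C2 * X * s := by ring
    have m7 : 6 * C2 * X * s ≤ 6 * C2 * h * X * u ^ 2 / s := by
      rw [le_div_iff₀ hs0]
      have e1 : s ^ 2 ≤ h * u ^ 2 := by
        have : (h : ℝ) * 1 ≤ h * u ^ 2 := by
          apply mul_le_mul_of_nonneg_left _ hh0
          nlinarith
        linarith
      calc 6 * C2 * X * s * s = 6 * C2 * X * s ^ 2 := by ring
        _ ≤ 6 * C2 * X * (h * u ^ 2) := mul_le_mul_of_nonneg_left e1 (by positivity)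
        _ = 6 * C2 * h * X * u ^ 2 := by ring
    linarith
  · rw [Finset.erase_eq_of_notMem hmem] at hm
    linarith

theorem m_FI : StFI := by
  rintro ⟨C1, X1, hC1, hA⟩ ⟨C2, hC2, n0, hB⟩
  refine ⟨16 * C1 + 12 * C2, max (max ⌈X1⌉₊ n0) ⌈Real.exp 3⌉₊, ?_⟩
  intro X H hX hHX
  have hX1 : X1 ≤ X := by
    have : ⌈X1⌉₊ ≤ X := le_trans (le_trans (le_max_left _ _) (le_max_left _ _)) hX
    exact le_trans (Nat.le_ceil _) (by exact_mod_cast this)
  have hXn : n0 ≤ X := le_trans (le_trans (le_max_right _ _) (le_max_left _ _)) hX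
  have hX3 : Real.exp 3 ≤ X := by
    have : ⌈Real.exp 3⌉₊ ≤ X := le_trans (le_max_right _ _) hX
    exact le_trans (Nat.le_ceil _) (by exact_mod_cast this)
  have hXpos : 0 < (X : ℝ) := lt_of_lt_of_le (Real.exp_pos 3) hX3
  have hs : 3 ≤ Real.log X := (Real.le_log_iff_exp_le hXpos).2 hX3
  have hs0 : 0 < Real.log X := by linarith
  -- second part
  have part2 : (Real.log X) ^ 2 ≤ H → ∑ n ∈ Finset.Ioc X (X + H), lam n ≤
      (16 * C1 + 12 * C2) * H * X * (Real.log (Real.log X)) ^ 2 / Real.log X := by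
    intro hH
    set h := ⌈(Real.log X) ^ 2⌉₊ with hhdef
    have hh1 : (Real.log X) ^ 2 ≤ h := Nat.le_ceil _
    have hh2 : (h : ℝ) ≤ (Real.log X) ^ 2 + 1 := (Nat.ceil_lt_add_one (by positivity)).le
    have hhH : h ≤ H := Nat.ceil_le.2 hH
    have hh3 : h ≤ X := le_trans hhH hHX
    have hpos : 0 < h := by
      rcases Nat.eq_zero_or_pos h with h0 | h0
      · exfalso
        rw [h0] at hh1
        have : 0 < (Real.log X) ^ 2 := by positivity
        have h00 : (((0 : ℕ) : ℝ)) = 0 := Nat.cast_zero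
        linarith
      · exact h0
    set B := (8 * C1 + 6 * C2) * h * X * (Real.log (Real.log X)) ^ 2 / Real.log X with hB'
    have hB0 : 0 ≤ B := by rw [hB']; positivity
    have key : ∀ k : ℕ, k ≤ H / h + 1 → ∑ n ∈ Finset.Ioc X (X + k * h), lam n ≤ k * B := by
      intro k
      induction k with
      | zero => intro _; simp
      | succ k ih =>
        intro hk
        have hk' : k ≤ H / h := by omega
        have hkh : k * h ≤ H := le_trans (Nat.mul_le_mul_right h hk') (Nat.div_mul_le_self H h)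
        have hb := block hC1 hC2 hA hB (X := X) (h := h) (t := X + k * h) hX1 hXn hs hh1 hh2 hh3
          (by omega) (by omega)
        have hih := ih (by omega)
        have hsum : ∑ n ∈ Finset.Ioc X (X + (k + 1) * h), lam n =
            ∑ n ∈ Finset.Ioc X (X + k * h), lam n +
            ∑ n ∈ Finset.Ioc (X + k * h) (X + k * h + h), lam n := by
          have e : X + (k + 1) * h = X + k * h + h := by ring
          rw [e]
          exact (Finset.sum_Ioc_consecutive lam (by omega) (by omega)).symm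
        rw [hsum]
        push_cast
        linarith
    have hcover : Finset.Ioc X (X + H) ⊆ Finset.Ioc X (X + (H / h + 1) * h) := by
      apply Finset.Ioc_subset_Ioc_right
      have h1 := Nat.div_add_mod H h
      have h2 := Nat.mod_lt H hpos
      have h3 : (H / h + 1) * h = h * (H / h) + h := by ring
      omega
    have hle1 : ∑ n ∈ Finset.Ioc X (X + H), lam n ≤ ((H / h + 1 : ℕ) : ℝ) * B :=
      le_trans (Finset.sum_le_sum_of_subset_of_nonneg hcover (fun n _ _ => lam_nonneg n))
        (key _ le_rfl)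
    refine le_trans hle1 ?_
    have h4 : (((H / h + 1 : ℕ) : ℝ)) * h ≤ 2 * H := by
      have : (H / h + 1) * h ≤ 2 * H := by
        have := Nat.div_mul_le_self H h
        have e : (H / h + 1) * h = H / h * h + h := by ring
        omega
      exact_mod_cast this
    set D := (8 * C1 + 6 * C2) * X * (Real.log (Real.log X)) ^ 2 / Real.log X with hD
    have hD0 : 0 ≤ D := by rw [hD]; positivity
    have e1 : ((H / h + 1 : ℕ) : ℝ) * B = (((H / h + 1 : ℕ) : ℝ) * h) * D := by
      rw [hB', hD]; ring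
    have e2 : (16 * C1 + 12 * C2) * H * X * (Real.log (Real.log X)) ^ 2 / Real.log X =
        (2 * H) * D := by
      rw [hD]; ring
    rw [e1, e2]
    exact mul_le_mul_of_nonneg_right h4 hD0
  refine ⟨?_, part2⟩
  intro hH
  by_cases h4 : (H : ℝ) ≤ (Real.log X) ^ 4
  · obtain ⟨m, hm⟩ := hA X hX1 H hH h4 hHX
    refine ⟨m, le_trans hm ?_⟩
    have e1 : 0 ≤ H * X * (Real.log (Real.log X)) ^ 2 / Real.log X := by positivity
    have e2 : C1 * H * X * (Real.log (Real.log X)) ^ 2 / Real.log X =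
        C1 * (H * X * (Real.log (Real.log X)) ^ 2 / Real.log X) := by ring
    have e3 : (16 * C1 + 12 * C2) * H * X * (Real.log (Real.log X)) ^ 2 / Real.log X =
        (16 * C1 + 12 * C2) * (H * X * (Real.log (Real.log X)) ^ 2 / Real.log X) := by ring
    rw [e2, e3]
    exact mul_le_mul_of_nonneg_right (by linarith) e1
  · push Not at h4
    refine ⟨0, le_trans ?_ (part2 ?_)⟩
    · exact Finset.sum_le_sum_of_subset_of_nonneg (Finset.erase_subset _ _)
        (fun n _ _ => lam_nonneg n)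
    · have : (Real.log X) ^ 2 ≤ (Real.log X) ^ 4 :=
        pow_le_pow_right₀ (by linarith) (by norm_num)
      linarith

end Pool.Agent.Helper12.MT
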